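import Pool.Agent.Helper33.MS.Goals

/-!
# Project MS, packet P3: records
-/

set_option autoImplicit false

open Finset SimpleGraph Pool.Agent.Helper35.Boot Pool.Agent.Helper33.MS

namespace Pool.Agent.Helper91.MS

open scoped Classical in
/-- The running maximum is bounded by the number of the records. -/
theorem records_bound (r : ℕ → ℝ) (A1 : ℝ) (hA1 : 1 ≤ A1) (hr : ∀ j, 0 < r j)
    (hstep : ∀ j, r (j + 1) ≤ A1 * r j) : ∀ j i : ℕ, i ≤ j →
    r i ≤ r 0 * A1 ^ ((Finset.range (j + 1)).filter fun j => ∀ i ≤ j, r i ≤ r j).card := by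
  intro j
  induction j with
  | zero =>
    intro i hi
    obtain rfl : i = 0 := Nat.le_zero.1 hi
    have h := one_le_pow₀ (n := ((Finset.range (0 + 1)).filter fun j => ∀ i ≤ j, r i ≤ r j).card) hA1
    exact le_mul_of_one_le_right (hr 0).le h
  | succ j ih =>
    intro i hi
    rw [Finset.range_add_one, Finset.filter_insert]
    by_cases hrec : ∀ i ≤ j + 1, r i ≤ r (j + 1)
    · rw [if_pos hrec, Finset.card_insert_of_notMem (by simp), pow_succ]
      have h1 := hrec i hi
      have h2 := hstep j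
      have h3 := ih j le_rfl
      have h4 : A1 * r j ≤ A1 * (r 0 * A1 ^ ((Finset.range (j + 1)).filter
          fun j => ∀ i ≤ j, r i ≤ r j).card) :=
        mul_le_mul_of_nonneg_left h3 (zero_le_one.trans hA1)
      calc r i ≤ A1 * (r 0 * A1 ^ ((Finset.range (j + 1)).filter
          fun j => ∀ i ≤ j, r i ≤ r j).card) := h1.trans (h2.trans h4)
        _ = _ := by ring
    · rw [if_neg hrec]
      rcases Nat.lt_or_ge i (j + 1) with h | h
      · exact ih i (Nat.lt_succ_iff.1 h)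
      · obtain rfl : i = j + 1 := le_antisymm hi h
        push Not at hrec
        obtain ⟨i', hi', h'⟩ := hrec
        have hne : i' ≠ j + 1 := by
          rintro rfl
          exact lt_irrefl _ h'
        exact h'.le.trans (ih i' (by omega))

/-- **P3.** Records. -/
theorem P3 : GoalP3 := by
  classical
  intro b A K hK hb hA hg
  -- the growth rate
  set μ : ℝ := (2 : ℝ) ^ ((1 : ℝ) / (2 * K)) with hμ
  have hK0 : (0 : ℝ) < K := by exact_mod_cast hK
  have hμ1 : 1 < μ := Real.one_lt_rpow (by norm_num) (by positivity)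
  have hμ0 : 0 < μ := zero_lt_one.trans hμ1
  have hμK : μ ^ (2 * K) = 2 := by
    rw [hμ, ← Real.rpow_natCast, ← Real.rpow_mul (by norm_num)]
    push_cast
    rw [one_div, inv_mul_cancel₀ (by positivity), Real.rpow_one]
  set A1 : ℝ := max A 2 with hA1
  have hA1' : 2 ≤ A1 := le_max_right _ _
  have hA11 : 1 < A1 := by linarith
  -- the normalized sequence
  set r : ℕ → ℝ := fun j => b j / (2 * μ) ^ j with hr
  have hr0 : ∀ j, 0 < r j := fun j => div_pos (hb j) (by positivity)
  have hstep : ∀ j, r (j + 1) ≤ A1 * r j := by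
    intro j
    simp only [hr]
    rw [pow_succ, div_le_iff₀ (by positivity)]
    have h1 : b (j + 1) ≤ A1 * b j :=
      (hA j).trans (mul_le_mul_of_nonneg_right (le_max_left _ _) (hb j).le)
    have h2 : A1 * (b j / (2 * μ) ^ j) * ((2 * μ) ^ j * (2 * μ)) = A1 * b j * (2 * μ) := by
      field_simp
    rw [h2]
    have h3 : 0 < A1 * b j := mul_pos (by linarith) (hb j)
    nlinarith
  have hlow : ∀ j, μ ^ j / 32 ≤ r j := by
    intro j
    have h1 : μ ^ (2 * j) ≤ 2 * 2 ^ (j / K) := by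
      have h2 : 2 * j ≤ 2 * K * (j / K + 1) := by
        have := Nat.lt_div_mul_add (a := j) (b := K) (by omega)
        nlinarith
      calc μ ^ (2 * j) ≤ μ ^ (2 * K * (j / K + 1)) := pow_le_pow_right₀ hμ1.le h2
        _ = 2 * 2 ^ (j / K) := by rw [pow_mul, hμK, pow_succ]; ring
    have h3 := hg j
    simp only [hr]
    rw [le_div_iff₀ (by positivity), mul_pow]
    have h4 : μ ^ j / 32 * (2 ^ j * μ ^ j) = 2 ^ j * μ ^ (2 * j) / 32 := by
      rw [two_mul, pow_add]; ring
    rw [h4]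
    have h5 : (2 : ℝ) ^ j * μ ^ (2 * j) ≤ 2 ^ j * (2 * 2 ^ (j / K)) :=
      mul_le_mul_of_nonneg_left h1 (by positivity)
    linarith
  -- the series
  have hinv0 : 0 < μ⁻¹ := inv_pos.2 hμ0
  have hinv1 : μ⁻¹ < 1 := inv_lt_one_of_one_lt₀ hμ1
  have hsum : Summable fun i : ℕ => ((i : ℝ) + 1) * μ⁻¹ ^ i := by
    have h1 := summable_pow_mul_geometric_of_norm_lt_one 1 (r := μ⁻¹)
      (by rw [Real.norm_of_nonneg hinv0.le]; exact hinv1)
    have h2 := summable_geometric_of_lt_one hinv0.le hinv1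
    refine (h1.add h2).congr fun i => ?_
    ring
  set S : ℝ := ∑' i : ℕ, ((i : ℝ) + 1) * μ⁻¹ ^ i with hS
  have hS0 : 0 ≤ S := tsum_nonneg fun i => by positivity
  have hrec : ∀ j, (∀ i ≤ j, r i ≤ r j) →
      ∑ i ∈ Finset.range (j + 1), ((i : ℝ) + 1) * 2 ^ i * b (j - i) ≤ (S + 1) * b j := by
    intro j hj
    have h1 : ∀ i ∈ Finset.range (j + 1),
        ((i : ℝ) + 1) * 2 ^ i * b (j - i) ≤ (((i : ℝ) + 1) * μ⁻¹ ^ i) * b j := by
      intro i hi
      have hi' : i ≤ j := Nat.lt_succ_iff.1 (Finset.mem_range.1 hi)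
      have h2 := hj (j - i) (Nat.sub_le _ _)
      simp only [hr] at h2
      rw [div_le_div_iff₀ (by positivity) (by positivity)] at h2
      have h3 : (2 * μ) ^ j = (2 * μ) ^ i * (2 * μ) ^ (j - i) := by
        rw [← pow_add, Nat.add_sub_cancel' hi']
      rw [h3, ← mul_assoc] at h2
      have h4 : b (j - i) * (2 * μ) ^ i ≤ b j :=
        le_of_mul_le_mul_right h2 (by positivity)
      have h5 : 2 ^ i * b (j - i) ≤ μ⁻¹ ^ i * b j := by
        rw [inv_pow, inv_mul_eq_div, le_div_iff₀ (by positivity)]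
        rw [mul_pow] at h4
        linarith
      calc ((i : ℝ) + 1) * 2 ^ i * b (j - i) = ((i : ℝ) + 1) * (2 ^ i * b (j - i)) := by ring
        _ ≤ ((i : ℝ) + 1) * (μ⁻¹ ^ i * b j) := mul_le_mul_of_nonneg_left h5 (by positivity)
        _ = _ := by ring
    calc ∑ i ∈ Finset.range (j + 1), ((i : ℝ) + 1) * 2 ^ i * b (j - i)
        ≤ ∑ i ∈ Finset.range (j + 1), (((i : ℝ) + 1) * μ⁻¹ ^ i) * b j := Finset.sum_le_sum h1
      _ = (∑ i ∈ Finset.range (j + 1), ((i : ℝ) + 1) * μ⁻¹ ^ i) * b j := by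
          rw [Finset.sum_mul]
      _ ≤ S * b j := mul_le_mul_of_nonneg_right
          (hsum.sum_le_tsum _ fun i _ => by positivity) (hb j).le
      _ ≤ (S + 1) * b j := mul_le_mul_of_nonneg_right (by linarith) (hb j).le
  -- the count
  have hlμ : 0 < Real.log μ := Real.log_pos hμ1
  have hlA : 0 < Real.log A1 := Real.log_pos hA11
  refine ⟨S + 1, Real.log μ / (2 * Real.log A1), by linarith, by positivity,
    ⌈2 + 2 * |Real.log (32 * r 0)| / Real.log μ⌉₊, fun J hJ => ?_⟩
  have hJ1 : 2 + 2 * |Real.log (32 * r 0)| / Real.log μ ≤ J := Nat.ceil_le.1 hJ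
  have hJ2 : 1 ≤ J := by
    have h1 : (0 : ℝ) ≤ 2 * |Real.log (32 * r 0)| / Real.log μ := by positivity
    have h2 : (1 : ℝ) ≤ J := by linarith
    exact_mod_cast h2
  obtain ⟨j, rfl⟩ : ∃ j, J = j + 1 := ⟨J - 1, by omega⟩
  set N := ((Finset.range (j + 1)).filter fun j => ∀ i ≤ j, r i ≤ r j).card with hN
  have hcard : N ≤ ((Finset.range (j + 1)).filter fun j =>
      ∑ i ∈ Finset.range (j + 1), ((i : ℝ) + 1) * 2 ^ i * b (j - i) ≤ (S + 1) * b j).card := by
    refine Finset.card_le_card fun i hi => ?_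
    rw [Finset.mem_filter] at hi ⊢
    exact ⟨hi.1, hrec i hi.2⟩
  have hmain : μ ^ j / 32 ≤ r 0 * A1 ^ N :=
    (hlow j).trans (records_bound r A1 hA11.le hr0 hstep j j le_rfl)
  have h1 : μ ^ j ≤ (32 * r 0) * A1 ^ N := by linarith
  have h2 : (j : ℝ) * Real.log μ ≤ Real.log (32 * r 0) + N * Real.log A1 := by
    have h3 := Real.log_le_log (by positivity) h1
    rw [Real.log_mul (by have := hr0 0; positivity) (by positivity), Real.log_pow,
      Real.log_pow] at h3
    exact h3
  have h3 : Real.log (32 * r 0) ≤ |Real.log (32 * r 0)| := le_abs_self _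
  have h4 : 2 * Real.log μ + 2 * |Real.log (32 * r 0)| ≤ ((j + 1 : ℕ) : ℝ) * Real.log μ := by
    have := mul_le_mul_of_nonneg_right hJ1 hlμ.le
    have h5 : (2 + 2 * |Real.log (32 * r 0)| / Real.log μ) * Real.log μ =
        2 * Real.log μ + 2 * |Real.log (32 * r 0)| := by
      field_simp
    linarith
  have h6 : Real.log μ / (2 * Real.log A1) * ((j + 1 : ℕ) : ℝ) ≤ N := by
    rw [div_mul_eq_mul_div, div_le_iff₀ (by positivity)]
    push_cast at h4 ⊢
    nlinarith
  exact h6.trans (by exact_mod_cast hcard)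

end Pool.Agent.Helper91.MS
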